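import Mathlib
import Pool.Agent.Q195.WN.Comb
import Pool.Agent.TH387.EX.Core

set_option autoImplicit false

/-!
# The equivalence of Q1 for 11 and for 15 points: all multiplicities and almost all degrees

For `r = 11` and `r = 15`, a general set `Y` of `r` points of the complex projective plane, every
multiplicity `m` and every degree `d`, the scheme `m Y` is `AH₂(d)` and the equivalence of Q1 holds,
unless `d` is divisible by three and lies in a window below `√r (m + 1 / 2) - 3 / 2` of length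
`0.0155..` (`r = 11`, two further pairs `(m, d)`), respectively `0.0332..` (`r = 15`). In particular
they hold in all degrees, for both `r`, for more than 98.3 percent of the multiplicities `m`.
-/

namespace Pool.Agent.Results.MP_8707bd_ag.ElevenAndFifteenPoints

open MvPolynomial Pool.Agent.TH387.EX

/-- For a general set `Y` of `r` points (one nonempty open set of `r`-tuples for all degrees): `m Y`
is `AH₂(d)` and the equivalence of Q1 holds for all `d` in `S`, and in no degree `d` an exceptional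
form divides all elements of `[I_Y ^ (m)]_d ≠ 0`. -/
def Settled (r m : ℕ) (S : Set ℕ) : Prop :=
  ∃ Φ : MvPolynomial (Fin r × Fin 2) ℂ, Φ ≠ 0 ∧ ∀ Y : Fin r → Fin 2 → ℂ,
    MvPolynomial.eval (fun ij : Fin r × Fin 2 => Y ij.1 ij.2) Φ ≠ 0 →
      (∀ d ∈ S, IsAH Y m d ∧ Equivalence Y m d) ∧
      ∀ d : ℕ, part (fat Y m) d ≠ ⊥ → ∀ F, IsExceptional Y F → ∃ G ∈ part (fat Y m) d, ¬ F ∣ G

theorem settled_of {r m : ℕ} (hr : 10 ≤ r) {S : Set ℕ}
    (h : ∃ F : MvPolynomial (Fin r × Fin 2) ℚ, F ≠ 0 ∧ ∀ P : Fin r → Fin 2 → ℂ,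
      MvPolynomial.aeval (fun ij : Fin r × Fin 2 => P ij.1 ij.2) F ≠ 0 →
      ∀ d ∈ S, Pool.Agent.H932R3.ExpDim ℂ (fun _ => m) P d) : Settled r m S := by
  obtain ⟨Φ, hΦ, hΦ'⟩ := core hr h
  exact ⟨Φ, hΦ, fun Y hY => ⟨(hΦ' Y hY).1, (hΦ' Y hY).2.2⟩⟩

theorem settled_mono {r m : ℕ} {S T : Set ℕ} (h : Settled r m S) (hST : T ⊆ S) : Settled r m T := by
  obtain ⟨Φ, hΦ, hΦ'⟩ := h
  exact ⟨Φ, hΦ, fun Y hY => ⟨fun d hd => (hΦ' Y hY).1 d (hST hd), (hΦ' Y hY).2⟩⟩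

theorem result :
    (∀ m : ℕ, Settled 11 m {d | ¬ (3 ∣ d ∧ √11 * m + (171 * √11 - 567) ≤ d ∧
      2 * (d : ℝ) + 3 < √11 * (2 * m + 1) ∧ (2 * d + 3) ^ 2 + 2 ≠ 11 * (2 * m + 1) ^ 2) ∧
      ¬ (m = 28 ∧ d = 93) ∧ ¬ (m = 47 ∧ d = 156)}) ∧
    (∀ m : ℕ, Settled 15 m {d | ¬ (3 ∣ d ∧ √15 * m + (33 - 8 * √15) / 5 ≤ d ∧
      2 * (d : ℝ) + 3 < √15 * (2 * m + 1) ∧ (2 * d + 3) ^ 2 + 6 ≠ 15 * (2 * m + 1) ^ 2)}) ∧
    (∀ ε : ℝ, 0 < ε → ∃ M₀ : ℕ, ∀ M : ℕ, M₀ ≤ M →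
      (Set.ncard {m : ℕ | m < M ∧ ¬ (Settled 11 m Set.univ ∧ Settled 15 m Set.univ)} : ℝ) ≤
        ((1131 - 341 * √11) / 6 + (21 * √15 - 81) / 30 + ε) * M) ∧
    (1131 - 341 * √(11 : ℝ)) / 6 + (21 * √(15 : ℝ) - 81) / 30 < 0.0163 := by
  have h11 : ∀ m : ℕ, Settled 11 m {d | ¬ Q195.WN.Open11 m d} := fun m => by
    obtain ⟨F, hF, hF'⟩ := Q195.WN.exp11 m
    exact settled_of (by norm_num) ⟨F, hF, fun P hP d hd => hF' P hP d hd⟩
  have h15 : ∀ m : ℕ, Settled 15 m {d | ¬ Q195.WN.Left15 m d} := fun m => by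
    obtain ⟨F, hF, hF'⟩ := Q195.WN.left15 m
    exact settled_of (by norm_num) ⟨F, hF, fun P hP d hd => hF' P hP d hd⟩
  refine ⟨fun m => settled_mono (h11 m) fun d hd => ?_, fun m => h15 m, fun ε hε => ?_,
    Q195.WN.numboth⟩
  · rintro (h1 | h1 | h1)
    · exact hd.1 h1
    · exact hd.2.1 h1
    · exact hd.2.2 h1
  · refine Q195.WN.countboth (fun m hm => ?_) (fun m hm => ?_) hε
    · by_contra hcon
      push Not at hcon
      exact hm (settled_mono (h11 m) fun d _ => hcon d)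
    · by_contra hcon
      push Not at hcon
      exact hm (settled_mono (h15 m) fun d _ => hcon d)

end Pool.Agent.Results.MP_8707bd_ag.ElevenAndFifteenPoints
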