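import Pool.Agent.Q241.FP.Core
import Pool.Agent.TH387.EX.Core

set_option autoImplicit false

/-!
# The equivalence of Q1 for all numbers `r ≥ 10` of points at once, for explicit large multiplicities

For `k = 0`, and for all the `k` (a set with bounded gaps, by the return times of a rotation) for which `k √n` has
distance less than `1 / 241` to an integer for the 22 numbers `n` in `openNumbers`, the multiplicity
`m = 74602991693235067300949 + k` has the following property: for every `r ≥ 10`, a general set `Y` of `r` points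
of the complex projective plane and every degree `d`: the scheme `m Y` is `AH₂(d)`, no form exceptional for `Y`
divides all elements of `[I_Y ^ (m)]_d` when this space is not zero, and the equivalence of Q1 holds.
-/

namespace Pool.Agent.Results.MP_8707bd_ag.EveryNumberOfPoints

open MvPolynomial Pool.Agent.TH387.EX

/-- for `r` general points `Y` (off one hypersurface for all degrees) and every degree `d`: `m Y` is `AH₂(d)`, the
equivalence of Q1 holds, and no exceptional form divides all elements of a nonzero `[I_Y ^ (m)]_d` -/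
def Holds (r m : ℕ) : Prop :=
  ∃ Φ : MvPolynomial (Fin r × Fin 2) ℂ, Φ ≠ 0 ∧ ∀ Y : Fin r → Fin 2 → ℂ,
    eval (fun ij : Fin r × Fin 2 => Y ij.1 ij.2) Φ ≠ 0 → ∀ d : ℕ,
      IsAH Y m d ∧ Equivalence Y m d ∧
        (part (fat Y m) d ≠ ⊥ → ∀ F, IsExceptional Y F → ∃ G ∈ part (fat Y m) d, ¬ F ∣ G)

theorem result (k : ℕ)
    (hk : ∀ n ∈ Pool.Agent.Q241.FP.openNumbers, ∃ f : ℤ, |(k : ℝ) * √(n : ℝ) - f| < 1 / 241) :
    ∀ r : ℕ, 10 ≤ r → Holds r (74602991693235067300949 + k) := by
  refine Pool.Agent.Q241.FP.explicit (p := fun m => ∀ r : ℕ, 10 ≤ r → Holds r m) ?_ hk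
  intro m hm hwin r hr
  obtain ⟨F, hF, hF'⟩ := Pool.Agent.Q241.FP.expDim_all hr hm hwin
  obtain ⟨Φ, hΦ, hΦ'⟩ := core hr (m := m) (S := Set.univ) ⟨F, hF, fun P hP d _ => hF' P hP d⟩
  refine ⟨Φ, hΦ, fun Y hY d => ?_⟩
  obtain ⟨c1, _, c3⟩ := hΦ' Y hY
  exact ⟨(c1 d (Set.mem_univ d)).1, (c1 d (Set.mem_univ d)).2, c3 d⟩

end Pool.Agent.Results.MP_8707bd_ag.EveryNumberOfPoints
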