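import Pool.Agent.Q138.PS.UB
import Pool.Agent.Q138.PS.UC
import Pool.Agent.Q138.PS.UP
import Pool.Agent.Results.MP_8707bd_ag.AllDegreesPositiveProportion

/-!
# Uniform fat points: `AH₂(d)` for ALL degrees `d`, for a positive proportion of the multiplicities `m = ⌊α P(n)⌋`

Let `q ≥ 2`. Outside a set of real numbers of Hausdorff dimension at most `q / (q + 1 / (q 2 ^ (q - 1)))` (that is `8 / 9` for
`q = 2`) every `α > 0` has the following property. Let `r ≥ 10` not be a perfect square and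
`bad r = (min (√r - 3) (2 / 3 + 9 / (4 √r)) + min (√r - 3) (2 / 3 + 1 / (4 √r))) / 2 < 1`. There is `η > 0` such that for each
`ε > 0`, all large `N` and ALL integral polynomials `P` of degree `q` with positive leading coefficient and coefficients of size
at most `N ^ η`, for all but `(bad r + ε) N` of the `n ≤ N` the scheme `m Y`, `m = ⌊α P(n)⌋`, `Y` a general set of `r` points of the
plane, is `AH₂(d)` for EVERY degree `d`. For `r ≥ r₀(ε)` this holds for all but `ε N` of the `n ≤ N`. For `r = 10` the bound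
`bad 10` is less than `0.163`.
-/

set_option autoImplicit false

namespace Pool.Agent.Results.MP_8707bd_ag.MultiplicitiesAlongRealMultiples

open Finset Filter Topology
open Pool.Agent.Q138.PS
open Pool.Agent.Results.MP_8707bd_ag.AllDegreesPositiveProportion (AllDegrees bad)

open Classical in
/-- the number of the `1 ≤ n ≤ N` for which `m = ⌊α P(n)⌋` is positive and `m Y` is not `AH₂(d)` for all degrees `d`, for `r`
general points `Y` -/
noncomputable def count (r : ℕ) (α : ℝ) (P : Polynomial ℤ) (N : ℕ) : ℕ :=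
  ((Icc 1 N).filter fun n : ℕ => 0 < ⌊α * ((P.eval (n : ℤ) : ℤ) : ℝ)⌋₊ ∧
    ¬ AllDegrees r ⌊α * ((P.eval (n : ℤ) : ℤ) : ℝ)⌋₊).card

theorem count_eq (r : ℕ) (α : ℝ) (P : Polynomial ℤ) (N : ℕ) :
    (count r α P N : ℝ) = cnP (fun m => 0 < m ∧ ¬ AllDegrees r m) α P N := by
  classical
  unfold count cnP cn
  refine congrArg _ (congrArg _ ?_)
  ext n
  simp only [mem_filter]

/-- from the bound for the number of the bad `m < M` -/
theorem dens_of {r : ℕ} {c : ℝ} (h : ∀ δ : ℝ, 0 < δ → ∃ M0 : ℝ, ∀ M : ℕ, M0 ≤ M →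
    (Set.ncard {m : ℕ | 0 < m ∧ m < M ∧ ¬ AllDegrees r m} : ℝ) ≤ (c + δ) * M) (δ : ℝ) (hδ : 0 < δ) :
    ∀ᶠ y : ℕ in atTop, cn (fun m => 0 < m ∧ ¬ AllDegrees r m) y ≤ (c + δ) * y := by
  obtain ⟨M0, hM0⟩ := h (δ / 2) (by positivity)
  filter_upwards [tendsto_natCast_atTop_atTop.eventually_ge_atTop M0,
    tendsto_natCast_atTop_atTop.eventually_ge_atTop (2 / δ)] with y hy hy2
  rw [cn_ncard]
  have h1 := hM0 y hy
  have h2 : ({n : ℕ | 1 ≤ n ∧ n ≤ y ∧ (0 < n ∧ ¬ AllDegrees r n)}.ncard : ℝ) ≤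
      ({m : ℕ | 0 < m ∧ m < y ∧ ¬ AllDegrees r m}.ncard : ℝ) + 1 := by
    have h3 : {n : ℕ | 1 ≤ n ∧ n ≤ y ∧ (0 < n ∧ ¬ AllDegrees r n)} ⊆ insert y {m : ℕ | 0 < m ∧ m < y ∧ ¬ AllDegrees r m} := by
      rintro n ⟨h4, h5, h6, h7⟩
      rcases eq_or_lt_of_le h5 with h8 | h8
      · exact Or.inl h8
      · exact Or.inr ⟨h6, h8, h7⟩
    have hfin : {m : ℕ | 0 < m ∧ m < y ∧ ¬ AllDegrees r m}.Finite := (Set.finite_Iio y).subset fun m hm => hm.2.1
    have h4 := (Set.ncard_le_ncard h3 (hfin.insert y)).trans (Set.ncard_insert_le _ _)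
    exact_mod_cast h4
  have h3 : (2 / δ) * (δ / 2) ≤ y * (δ / 2) := by gcongr
  have h4 : (2 / δ) * (δ / 2) = 1 := by field_simp
  linarith

/-- **Theorem.** -/
theorem result (q : ℕ) (hq : 2 ≤ q) :
    (∃ E : Set ℝ, dimH E ≤ ENNReal.ofReal (q / (q + 1 / ((q : ℝ) * 2 ^ (q - 1)))) ∧ ∀ α : ℝ, 0 < α → α ∉ E →
      (∀ r : ℕ, 10 ≤ r → ¬ IsSquare r → ∃ η : ℝ, 0 < η ∧ ∀ ε : ℝ, 0 < ε → ∀ᶠ N : ℕ in atTop, ∀ P : Polynomial ℤ,
        P.natDegree = q → 0 < P.leadingCoeff → (∀ j, |((P.coeff j : ℤ) : ℝ)| ≤ (N : ℝ) ^ η) →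
        (count r α P N : ℝ) ≤ (bad r + ε) * N) ∧
      ∀ ε : ℝ, 0 < ε → ∃ r₀ : ℕ, ∀ r : ℕ, r₀ ≤ r → ¬ IsSquare r → ∃ η : ℝ, 0 < η ∧ ∀ᶠ N : ℕ in atTop, ∀ P : Polynomial ℤ,
        P.natDegree = q → 0 < P.leadingCoeff → (∀ j, |((P.coeff j : ℤ) : ℝ)| ≤ (N : ℝ) ^ η) →
        (count r α P N : ℝ) ≤ ε * N) ∧
    (∀ r : ℕ, 10 ≤ r → bad r < 1) ∧ bad 10 < 0.163 := by
  classical
  obtain ⟨s1, s2, s3, s4⟩ := Pool.Agent.Results.MP_8707bd_ag.AllDegreesPositiveProportion.result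
  refine ⟨?_, s2, s3⟩
  choose! r₀ hr₀ using s4
  set c : ℕ × ℕ → ℝ := fun i => if i.2 = 0 then (if 10 ≤ i.1 ∧ ¬ IsSquare i.1 then bad i.1 else 1) else
    (if r₀ (1 / (i.2 : ℝ)) ≤ i.1 ∧ ¬ IsSquare i.1 then 1 / (i.2 : ℝ) else 1) with hc
  have htriv : ∀ (r : ℕ) (δ : ℝ), 0 < δ → ∀ᶠ y : ℕ in atTop, cn (fun m => 0 < m ∧ ¬ AllDegrees r m) y ≤ (1 + δ) * y := by
    intro r δ hδ
    refine Eventually.of_forall fun y => ?_
    have h1 : cn (fun m => 0 < m ∧ ¬ AllDegrees r m) y ≤ y := cn_le_self' _ _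
    have h2 : (0 : ℝ) ≤ y := Nat.cast_nonneg y
    nlinarith
  obtain ⟨E, hE, hg⟩ := dens_nat (ι := ℕ × ℕ) q hq (fun i m => 0 < m ∧ ¬ AllDegrees i.1 m) c (by
    rintro ⟨r, k⟩ δ hδ
    simp only [hc]
    by_cases hk : k = 0
    · rw [if_pos hk]
      by_cases hr : 10 ≤ r ∧ ¬ IsSquare r
      · rw [if_pos hr]
        exact dens_of (s1 r hr.1 hr.2) δ hδ
      · rw [if_neg hr]
        exact htriv r δ hδ
    · rw [if_neg hk]
      have hk0 : (0 : ℝ) < 1 / (k : ℝ) := by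
        have : (0 : ℝ) < k := by exact_mod_cast Nat.pos_of_ne_zero hk
        positivity
      by_cases hr : r₀ (1 / (k : ℝ)) ≤ r ∧ ¬ IsSquare r
      · rw [if_pos hr]
        refine dens_of (fun δ' hδ' => ?_) δ hδ
        obtain ⟨M0, hM0⟩ := hr₀ (1 / (k : ℝ)) hk0 r hr.1 hr.2
        refine ⟨M0, fun M hM => (hM0 M hM).trans ?_⟩
        have : (0 : ℝ) ≤ M := Nat.cast_nonneg M
        nlinarith
      · rw [if_neg hr]
        exact htriv r δ hδ)
  refine ⟨E, hE, fun α hα hαE => ⟨fun r hr10 hrs => ?_, fun ε hε => ?_⟩⟩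
  · obtain ⟨η, hη, h1⟩ := hg α hα hαE (r, 0)
    refine ⟨η, hη, fun ε hε => ?_⟩
    filter_upwards [h1 ε hε] with N hN
    intro P hdeg hlead hco
    have h2 := hN P hdeg hlead hco
    simp only [hc, if_true] at h2
    rw [if_pos ⟨hr10, hrs⟩] at h2
    rw [count_eq]
    exact h2
  · obtain ⟨k, hk⟩ := exists_nat_one_div_lt (show 0 < ε / 2 by positivity)
    refine ⟨r₀ (1 / ((k + 1 : ℕ) : ℝ)), fun r hr hrs => ?_⟩
    obtain ⟨η, hη, h1⟩ := hg α hα hαE (r, k + 1)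
    refine ⟨η, hη, ?_⟩
    filter_upwards [h1 (ε / 2) (by positivity)] with N hN
    intro P hdeg hlead hco
    have h2 := hN P hdeg hlead hco
    simp only [hc, Nat.add_eq_zero_iff, one_ne_zero, and_false, if_false] at h2
    rw [if_pos ⟨hr, hrs⟩] at h2
    rw [count_eq]
    refine h2.trans ?_
    have h3 : (0 : ℝ) ≤ N := Nat.cast_nonneg N
    have h4 : 1 / ((k + 1 : ℕ) : ℝ) + ε / 2 ≤ ε := by
      push_cast
      linarith
    gcongr

end Pool.Agent.Results.MP_8707bd_ag.MultiplicitiesAlongRealMultiples
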