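import Pool.Agent.Q117.HH.E
import Pool.Agent.Results.MP_d03834_ag.EffectiveEveryField
import Pool.Agent.TH387.EX.Core

set_option autoImplicit false

/-!
# The SHGH equivalence for one multiplicity `m` and EVERY number `r ≥ 10` of points at once

For a positive proportion of the multiplicities `m` of every long interval, and of the `m = f(k)` and the `m = f(p)`, `p` prime, for
every integral polynomial `f` of positive degree with positive leading coefficient: for EVERY `r ≥ 10`, a general set `Y` of `r` points and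
EVERY degree `d`, the scheme `m Y` is `AH₂(d)`, no form exceptional for `Y` divides all elements of `[I_Y ^ (m)]_d` if this
space is not zero, and the equivalence of Q1 holds. For every set `R` of elements of `openR` (the `r` left open by the earlier
results, all between 10 and 35) without two elements whose product is a square, this holds for all `r ≥ 10` outside
`openR ∖ R` for a proportion at least `∏ r ∈ R, (1 - beta r)` of the multiplicities `m = f(k)` and of the `m = f(p)`.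
-/

namespace Pool.Agent.Results.MP_8707bd_ag.OneMultiplicityAllNumbers

open Finset Filter Polynomial
open Pool.Agent.Q117.HH
open Pool.Agent.TH387.EX
open Pool.Agent.Results.MP_d03834_ag.EffectiveEveryField (Open)

/-- For `r` general points `Y` and every degree `d` the scheme `m Y` is `AH₂(d)`, the equivalence of Q1 holds, and no exceptional
form divides all elements of `[I_Y ^ (m)]_d ≠ 0`. -/
def Holds (r m : ℕ) : Prop :=
  ∃ Φ : MvPolynomial (Fin r × Fin 2) ℂ, Φ ≠ 0 ∧ ∀ Y : Fin r → Fin 2 → ℂ,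
    MvPolynomial.eval (fun ij : Fin r × Fin 2 => Y ij.1 ij.2) Φ ≠ 0 → ∀ d : ℕ,
      IsAH Y m d ∧ Equivalence Y m d ∧
        (part (fat Y m) d ≠ ⊥ → ∀ F, IsExceptional Y F → ∃ G ∈ part (fat Y m) d, ¬ F ∣ G)

/-- The numbers `r` of points which are open. -/
def openR : Finset ℕ :=
  {10, 11, 12, 14, 15, 17, 18, 19, 20, 22, 23, 24, 26, 27, 28, 29, 30, 31, 32, 33, 34, 35}

/-- The bound for the proportion of the other multiplicities. -/
noncomputable def beta (r : ℕ) : ℝ := be {11, 15} r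

theorem holds_of {r m : ℕ} (hr : 10 ≤ r) (hm : 1 ≤ m) (h : ∀ d, ¬ Open r m d) : Holds r m := by
  obtain ⟨F, hF, hF'⟩ := Pool.Agent.Results.MP_d03834_ag.EffectiveEveryField.generic hr hm
  obtain ⟨Φ, hΦ, hΦ'⟩ := core hr (m := m) (S := Set.univ) ⟨F, hF, fun P hP d _ => hF' P hP d fun hd => h d hd.2⟩
  refine ⟨Φ, hΦ, fun Y hY d => ?_⟩
  obtain ⟨h1, _, h3⟩ := hΦ' Y hY
  exact ⟨(h1 d (Set.mem_univ d)).1, (h1 d (Set.mem_univ d)).2, h3 d⟩

theorem not_openR {n : ℕ} (hn : 10 ≤ n) (h : n ∉ openR) : 37 ≤ n ∨ n = 13 ∨ n = 21 ∨ IsSquare n := by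
  by_contra hcon
  push Not at hcon
  obtain ⟨h1, h2, h3, h4⟩ := hcon
  have h16 : n ≠ 16 := fun h => h4 ⟨4, by omega⟩
  have h25 : n ≠ 25 := fun h => h4 ⟨5, by omega⟩
  have h36 : n ≠ 36 := fun h => h4 ⟨6, by omega⟩
  unfold openR at h
  simp only [mem_insert, mem_singleton, not_or] at h
  omega

theorem openR_sq : ∀ r ∈ openR, ¬ IsSquare r := by decide +kernel

theorem openR_ten : ∀ r ∈ openR, 10 ≤ r := by decide +kernel

/-- **Main result.** -/
theorem result :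
    -- every number of points at once
    (∃ κ : ℝ, 0 < κ ∧ (∀ᶠ N : ℕ in atTop, ∀ x : ℕ,
      κ * N ≤ Set.ncard {m : ℕ | x < m ∧ m ≤ x + N ∧ ∀ r : ℕ, 10 ≤ r → Holds r m}) ∧
      ∀ f : ℤ[X], 1 ≤ f.natDegree → 0 < f.leadingCoeff → ∀ᶠ N : ℕ in atTop,
      κ * N ≤ Set.ncard {k : ℕ | 1 ≤ k ∧ k ≤ N ∧ 0 < f.eval (k : ℤ) ∧
        ∀ r : ℕ, 10 ≤ r → Holds r (f.eval (k : ℤ)).toNat} ∧
      κ * (Nat.primeCounting N : ℝ) ≤ Set.ncard {p : ℕ | p.Prime ∧ p ≤ N ∧ 0 < f.eval (p : ℤ) ∧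
        ∀ r : ℕ, 10 ≤ r → Holds r (f.eval (p : ℤ)).toNat}) ∧
    -- the proportions
    (∀ R ⊆ openR, (∀ r ∈ R, ∀ s ∈ R, r ≠ s → ¬ IsSquare (r * s)) → ∀ ε : ℝ, 0 < ε →
      (∀ᶠ N : ℕ in atTop, ∀ x : ℕ, (∏ r ∈ R, (1 - beta r) - ε) * N ≤
        Set.ncard {m : ℕ | x < m ∧ m ≤ x + N ∧ ∀ r : ℕ, 10 ≤ r → (r ∈ openR → r ∈ R) → Holds r m}) ∧
      ∀ f : ℤ[X], 1 ≤ f.natDegree → 0 < f.leadingCoeff → ∀ᶠ N : ℕ in atTop,
      (∏ r ∈ R, (1 - beta r) - ε) * N ≤ Set.ncard {k : ℕ | 1 ≤ k ∧ k ≤ N ∧ 0 < f.eval (k : ℤ) ∧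
        ∀ r : ℕ, 10 ≤ r → (r ∈ openR → r ∈ R) → Holds r (f.eval (k : ℤ)).toNat} ∧
      (∏ r ∈ R, (1 - beta r) - ε) * (Nat.primeCounting N : ℝ) ≤ Set.ncard {p : ℕ | p.Prime ∧ p ≤ N ∧
        0 < f.eval (p : ℤ) ∧ ∀ r : ℕ, 10 ≤ r → (r ∈ openR → r ∈ R) → Holds r (f.eval (p : ℤ)).toNat}) ∧
    (∀ r ∈ openR, beta r < 1) ∧ beta 10 < 0.163 ∧ beta 11 < 0.053 ∧ beta 15 < 0.146 := by
  have q1 : ∀ m : ℕ, 0 < m → (∀ r : ℕ, 10 ≤ r → r ≤ 36 → ¬ IsSquare r → ∀ d, ¬ Win r m d) →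
      ∀ r : ℕ, 10 ≤ r → Holds r m := by
    intro m hm h n hn
    refine holds_of hn hm fun d hd => ?_
    obtain ⟨h1, h2, h3, -⟩ := hd
    push Not at h1
    exact h n hn (by omega) h1.2.2.2 d ⟨h2, h3⟩
  have q2 : ∀ R : Finset ℕ, ∀ m : ℕ, 0 < m → (∀ r ∈ R, r ∈ ({11, 15} : Finset ℕ) → ∀ d, ¬ Win3 r m d) →
      (∀ r ∈ R, r ∉ ({11, 15} : Finset ℕ) → ∀ d, ¬ Win r m d) →
      ∀ r : ℕ, 10 ≤ r → (r ∈ openR → r ∈ R) → Holds r m := by
    intro R m hm h1 h2 n hn hnR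
    refine holds_of hn hm fun d hd => ?_
    obtain ⟨h3, h4, h5, h6⟩ := hd
    have hn2 : n ∈ openR := by
      by_contra hcon
      exact h3 (not_openR hn hcon)
    by_cases hT : n ∈ ({11, 15} : Finset ℕ)
    · obtain ⟨h7, -, h8⟩ := h6 (by simpa using hT)
      exact h1 n (hnR hn2) hT d ⟨h7, h4, h8⟩
    · exact h2 n (hnR hn2) hT d ⟨h4, h5⟩
  exact ⟨⟨kap, kap_pos, joint_short q1, fun f hf hlc => joint q1 hf hlc⟩, fun R hR hpair ε hε =>
    ⟨several_short (fun r hr => openR_ten r (hR hr)) (fun r hr => openR_sq r (hR hr)) hpair (q2 R) hε,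
      fun f hf hlc => several (fun r hr => openR_ten r (hR hr)) (fun r hr => openR_sq r (hR hr)) hpair (q2 R) hf hlc hε⟩,
    fun n hn => be_lt (openR_ten n hn), be_ten (by decide), be_eleven (by decide), be_fifteen (by decide)⟩

end Pool.Agent.Results.MP_8707bd_ag.OneMultiplicityAllNumbers
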